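import Pool.Agent.Helper76.TC.Goals

set_option autoImplicit false

open Set

namespace Pool.Agent.Helper22.TC.QT

open Pool.Agent.Helper50.CT (rv)
open Pool.Agent.Helper76.TC

/-- a copy of `ℝⁿ` -/
def Cp (n : ℕ) : Type := Fin n → ℝ

lemma rv_zero (n : ℕ) : (rv (0 : Fin n → ℤ)) = 0 := by
  funext i; simp [rv]

lemma rv_add {n : ℕ} (a b : Fin n → ℤ) : rv (a + b) = rv a + rv b := by
  funext i; simp [rv]

lemma rv_neg {n : ℕ} (a : Fin n → ℤ) : rv (-a) = -rv a := by
  funext i; simp [rv]

theorem t : S_QT := by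
  intro n A d hd
  obtain ⟨c, C, hc, hb⟩ := hd.bilip
  have d0 : ∀ x, d x x = 0 := fun x => by
    have h := hb x x
    rw [sub_self, norm_zero, mul_zero, mul_zero] at h
    exact le_antisymm h.2 h.1
  have dpos : ∀ x y, 0 ≤ d x y := fun x y =>
    le_trans (mul_nonneg hc.le (norm_nonneg _)) (hb x y).1
  have bdd : ∀ x y : Fin n → ℝ, BddBelow (range fun k : Fin n → ℤ => d x (rv k + y)) :=
    fun x y => ⟨0, by rintro _ ⟨k, rfl⟩; exact dpos _ _⟩
  let q : (Fin n → ℝ) → (Fin n → ℝ) → ℝ := fun x y => ⨅ k : Fin n → ℤ, d x (rv k + y)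
  have qle : ∀ x y (k : Fin n → ℤ), q x y ≤ d x (rv k + y) := fun x y k => ciInf_le (bdd x y) k
  have q0 : ∀ x y, 0 ≤ q x y := fun x y => le_ciInf fun k => dpos _ _
  have qled : ∀ x y, q x y ≤ d x y := fun x y => by
    have h := qle x y 0
    rwa [rv_zero, zero_add] at h
  have qself : ∀ x, q x x = 0 := fun x => le_antisymm ((qled x x).trans (d0 x).le) (q0 x x)
  have qsle : ∀ x y, q x y ≤ q y x := fun x y => le_ciInf fun k => by
    have h := qle x y (-k)
    have h2 := hd.periodic k x (rv (-k) + y)
    rw [rv_neg, ← add_assoc, add_neg_cancel, zero_add] at h2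
    rw [rv_neg] at h
    rw [hd.symm y, h2]
    exact h
  have qsymm : ∀ x y, q x y = q y x := fun x y => le_antisymm (qsle x y) (qsle y x)
  have qtri : ∀ x y z, q x z ≤ q x y + q y z := fun x y z => by
    refine le_of_forall_pos_lt_add fun ε hε => ?_
    obtain ⟨k, hk⟩ := exists_lt_of_ciInf_lt (show q x y < q x y + ε / 2 by linarith)
    obtain ⟨k', hk'⟩ := exists_lt_of_ciInf_lt (show q y z < q y z + ε / 2 by linarith)
    have h := qle x z (k + k')
    have h2 := hd.triangle x (rv k + y) (rv k + (rv k' + z))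
    rw [hd.periodic] at h2
    rw [rv_add, add_assoc] at h
    have hk1 : d x (rv k + y) < q x y + ε / 2 := hk
    have hk2 : d y (rv k' + z) < q y z + ε / 2 := hk'
    linarith
  let inst : PseudoMetricSpace (Cp n) :=
    { dist := fun x y => q x y
      dist_self := qself
      dist_comm := qsymm
      dist_triangle := qtri }
  have hdist : ∀ x y : Fin n → ℝ,
      dist (SeparationQuotient.mk (show Cp n from x)) (SeparationQuotient.mk (show Cp n from y)) =
        q x y := fun x y => rfl
  let F : (Fin n → ℝ) → SeparationQuotient (Cp n) := fun x => SeparationQuotient.mk (show Cp n from x)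
  have hF : ∀ x y, dist (F x) (F y) = q x y := fun x y => rfl
  have hcont : Continuous F := by
    have hl : LipschitzWith (Real.toNNReal C) F := by
      refine LipschitzWith.of_dist_le_mul fun x y => ?_
      rw [hF, dist_eq_norm]
      refine ((qled x y).trans (hb x y).2).trans ?_
      exact mul_le_mul_of_nonneg_right (Real.le_coe_toNNReal C) (norm_nonneg _)
    exact hl.continuous
  have hsurj : Function.Surjective F := fun p => by
    obtain ⟨x, rfl⟩ := SeparationQuotient.surjective_mk p
    exact ⟨x, rfl⟩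
  have hcpt : CompactSpace (SeparationQuotient (Cp n)) := by
    constructor
    have h : F '' (Icc (0 : Fin n → ℝ) 1) = univ := by
      refine eq_univ_of_forall fun p => ?_
      obtain ⟨x, rfl⟩ := hsurj p
      refine ⟨rv (fun i => -⌊x i⌋) + x, ⟨fun i => ?_, fun i => ?_⟩, ?_⟩
      · simp only [rv, Pi.add_apply, Pi.zero_apply, Int.cast_neg]
        linarith [Int.floor_le (x i)]
      · simp only [rv, Pi.add_apply, Pi.one_apply, Int.cast_neg]
        linarith [Int.lt_floor_add_one (x i)]
      · refine dist_le_zero.1 ?_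
        rw [hF]
        refine (qle _ _ (fun i => -⌊x i⌋)).trans ?_
        rw [d0]
    rw [← h]
    exact isCompact_Icc.image hcont
  exact ⟨SeparationQuotient (Cp n), inferInstance, hcpt, ⟨F 0⟩, F, ⟨hsurj, fun x y => hF x y⟩⟩

end Pool.Agent.Helper22.TC.QT
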